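import Pool.Agent.H97.ProjDefs

set_option autoImplicit false

namespace Pool.Agent.Results.MP_7ec995_an.Bubble

open Pool.Agent.H97.Proj Filter Topology

lemma dFS_mk {m : ℕ} (u v : EuclideanSpace ℂ (Fin (m + 1))) (hu : u ≠ 0) (hv : v ≠ 0) :
    dFS (Projectivization.mk ℂ u hu) (Projectivization.mk ℂ v hv) =
      Real.arccos (‖inner ℂ u v‖ / (‖u‖ * ‖v‖)) := by
  obtain ⟨a, ha⟩ := Projectivization.exists_smul_eq_mk_rep ℂ u hu
  obtain ⟨b, hb⟩ := Projectivization.exists_smul_eq_mk_rep ℂ v hv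
  have ha' : ‖(a : ℂ)‖ ≠ 0 := norm_ne_zero_iff.mpr a.ne_zero
  have hb' : ‖(b : ℂ)‖ ≠ 0 := norm_ne_zero_iff.mpr b.ne_zero
  rw [dFS, ← ha, ← hb, Units.smul_def, Units.smul_def, inner_smul_left, inner_smul_right,
    norm_smul, norm_smul, norm_mul, norm_mul, RCLike.norm_conj]
  congr 1
  field_simp

noncomputable def lift {k : ℕ} (a : Fin k → ℂ) (t : ℂ) (z : Fin k → ℂ) :
    EuclideanSpace ℂ (Fin (k + 1)) := WithLp.toLp 2 (Fin.cons t (z - a) : Fin (k + 1) → ℂ)

lemma lift_ne {k : ℕ} (a : Fin k → ℂ) {t : ℂ} (ht : t ≠ 0) (z : Fin k → ℂ) : lift a t z ≠ 0 :=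
  fun h => ht (by simpa [lift] using congrArg (fun v => v 0) h)

lemma lift_diff {k : ℕ} (a : Fin k → ℂ) (t : ℂ) : Differentiable ℂ (lift a t) := by
  unfold lift
  refine (PiLp.continuousLinearEquiv 2 ℂ (fun _ : Fin (k + 1) => ℂ)).symm.differentiable.comp
    (differentiable_pi.mpr fun j => ?_)
  refine Fin.cases ?_ (fun i => ?_) j
  · simp
  · simp only [Fin.cons_succ, Pi.sub_apply]; fun_prop

lemma le_lift {k : ℕ} (a : Fin k → ℂ) (t : ℂ) (z : Fin k → ℂ) : ‖z - a‖ ≤ ‖lift a t z‖ :=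
  (pi_norm_le_iff_of_nonneg (norm_nonneg _)).mpr fun j => by
    simpa [lift] using PiLp.norm_apply_le (lift a t z) j.succ

lemma lift_sub {k : ℕ} (a : Fin k → ℂ) (t : ℂ) (z p : Fin k → ℂ) :
    lift a t z - lift a t p = lift a 0 z - lift a 0 p := by
  ext j
  refine Fin.cases ?_ (fun i => ?_) j <;> simp [lift]

/-- For all `n ≥ 1` and `0 < r < 1` there is a family of holomorphic maps from the polydisk of
`ℂ^(n+1)` to `ℙ^(n+1)`, equicontinuous on the Hartogs figure but not on the polydisk. -/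
theorem result : ∀ n : ℕ, 1 ≤ n → ∀ r : ℝ, 0 < r → r < 1 →
    ∃ 𝓕 : Set ((Fin (n + 1) → ℂ) → P (n + 1)),
      (∀ f ∈ 𝓕, Holo (Pdisk (n + 1)) f) ∧ Equi 𝓕 (Hartogs n r) ∧ ¬ Equi 𝓕 (Pdisk (n + 1)) := by
  intro n hn r h0 h1
  let a : Fin (n + 1) → ℂ := Pi.single 0 ((1 - r / 2 : ℝ) : ℂ)
  have hna : ‖((1 - r / 2 : ℝ) : ℂ)‖ = 1 - r / 2 := by
    rw [Complex.norm_real, Real.norm_of_nonneg (by linarith)]
  refine ⟨{f | ∃ t : ℂ, ∃ ht : t ≠ 0,
    f = fun z => Projectivization.mk ℂ (lift a t z) (lift_ne a ht z)}, ?_, ?_, fun h => ?_⟩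
  · rintro f ⟨t, ht, rfl⟩ p -
    exact ⟨lift a t, Eventually.of_forall fun z => ⟨lift_diff a t z, lift_ne a ht z, rfl⟩⟩
  · intro p hp ε hε
    have hpa : p ≠ a := by
      rintro rfl
      rcases hp with hp | hp
      · have := hp.1 ⟨0, hn⟩
        rw [show (Fin.castSucc ⟨0, hn⟩ : Fin (n + 1)) = 0 from rfl] at this
        simp only [a, Pi.single_eq_same, hna] at this
        linarith
      · have := hp.2.1
        rw [show a (Fin.last n) = 0 from Pi.single_eq_of_ne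
          (fun h => by simpa [Fin.ext_iff] using (show n ≠ 0 by omega) (congrArg Fin.val h)) _,
          norm_zero] at this
        linarith
    have hm : 0 < ‖p - a‖ := norm_pos_iff.mpr (sub_ne_zero.mpr hpa)
    have c1 : ContinuousAt (fun z => Real.arccos ((‖p - a‖ - ‖lift a 0 z - lift a 0 p‖) /
        (‖p - a‖ + ‖lift a 0 z - lift a 0 p‖))) p := by
      have := (lift_diff a 0).continuous
      exact Real.continuous_arccos.continuousAt.comp (ContinuousAt.div (by fun_prop) (by fun_prop)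
        (by simpa using hm.ne'))
    have c2 := c1.eventually (gt_mem_nhds (a := ε) (by simpa [div_self hm.ne'] using hε))
    obtain ⟨δ, hδ, h⟩ := Metric.eventually_nhds_iff.mp c2
    refine ⟨δ, hδ, ?_⟩
    rintro f ⟨t, ht, rfl⟩ z - hz
    refine lt_of_le_of_lt ?_ (h (by rwa [dist_eq_norm]))
    rw [dFS_mk, ← lift_sub a t]
    refine Real.arccos_le_arccos ?_
    have h2 := le_lift a t p
    set u := lift a t p
    set η := lift a t z - u with hη
    have hv : lift a t z = η + u := by simp [hη]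
    have hz0 := norm_pos_iff.mpr (lift_ne a ht z)
    have h3 : ‖lift a t z‖ ≤ ‖η‖ + ‖u‖ := by rw [hv]; exact norm_add_le _ _
    have h4 : ‖u‖ ^ 2 - ‖η‖ * ‖u‖ ≤ ‖inner ℂ (lift a t z) u‖ := by
      rw [hv, inner_add_left]
      have h5 := norm_inner_le_norm (𝕜 := ℂ) η u
      have h6 := norm_sub_norm_le (inner ℂ u u) (-inner ℂ η u)
      have h7 : ‖inner ℂ u u‖ = ‖u‖ ^ 2 := by simp [inner_self_eq_norm_sq_to_K]
      rw [norm_neg, sub_neg_eq_add, add_comm (inner ℂ u u), h7] at h6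
      linarith
    have h7 := norm_nonneg η
    have h8 := norm_nonneg (inner ℂ (lift a t z) u)
    have hu : 0 < ‖u‖ := by linarith
    rw [div_le_div_iff₀ (by linarith) (by positivity)]
    rcases le_total ‖p - a‖ ‖η‖ with h9 | h9
    · nlinarith [mul_pos hz0 hu, mul_nonneg h8 (add_nonneg hm.le h7)]
    · have h10 : (‖p - a‖ - ‖η‖) * (‖lift a t z‖ * ‖u‖) ≤
          (‖p - a‖ - ‖η‖) * ((‖η‖ + ‖u‖) * ‖u‖) := by gcongr
      have h11 : (‖u‖ ^ 2 - ‖η‖ * ‖u‖) * (‖p - a‖ + ‖η‖) ≤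
          ‖inner ℂ (lift a t z) u‖ * (‖p - a‖ + ‖η‖) := by gcongr
      nlinarith [mul_nonneg (mul_nonneg h7 hu.le) (sub_nonneg.mpr h2)]
  · have ha : a ∈ Pdisk (n + 1) := fun j => by
      by_cases hj : j = 0
      · simp only [a, hj, Pi.single_eq_same, hna]; linarith
      · simp [a, hj]
    obtain ⟨δ, hδ, h⟩ := h a ha (Real.arccos (1 / 2)) (Real.arccos_pos.mpr (by norm_num))
    set s := min (δ / 2) (r / 4) with hs
    have hs0 : 0 < s := by positivity
    have hs1 : s ≤ δ / 2 := min_le_left _ _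
    have hs2 : s ≤ r / 4 := min_le_right _ _
    have ht : ((s / 2 : ℝ) : ℂ) ≠ 0 := by exact_mod_cast (show s / 2 ≠ 0 by positivity)
    let z : Fin (n + 1) → ℂ := a + Pi.single 0 (s : ℂ)
    have hza : ‖z - a‖ = s := by
      simp [z, Pi.norm_single, abs_of_pos hs0]
    have hz : z ∈ Pdisk (n + 1) := fun j => by
      by_cases hj : j = 0
      · simp only [z, a, hj, Pi.add_apply, Pi.single_eq_same]
        refine (norm_add_le _ _).trans_lt ?_
        rw [hna, Complex.norm_real, Real.norm_of_nonneg hs0.le]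
        linarith
      · simp [z, a, hj]
    have h2 := h _ ⟨_, ht, rfl⟩ z hz (by linarith)
    rw [dFS_mk] at h2
    refine absurd h2 (not_lt.mpr (Real.arccos_le_arccos ?_))
    have h3 := le_lift a ((s / 2 : ℝ) : ℂ) z
    have h4 : ‖lift a ((s / 2 : ℝ) : ℂ) a‖ = s / 2 := by
      rw [EuclideanSpace.norm_eq, Fin.sum_univ_succ]
      simp [lift, abs_of_pos hs0, Real.sqrt_sq (show 0 ≤ s / 2 by positivity)]
    have h5 : ‖inner ℂ (lift a ((s / 2 : ℝ) : ℂ) z) (lift a ((s / 2 : ℝ) : ℂ) a)‖ = (s / 2) ^ 2 := by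
      rw [PiLp.inner_apply, Fin.sum_univ_succ]
      simp [lift, abs_of_pos hs0]
    rw [h4, h5, div_le_iff₀ (by nlinarith)]
    nlinarith

end Pool.Agent.Results.MP_7ec995_an.Bubble
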